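import Pool.Agent.Q212.BL.AddNull

/-!
# A weak Lipschitz Baumgartner axiom implies that the null ideal is `ℵ₂`-additive

`WeakMod m` says that for all sets `A`, `B` of sequences of natural numbers with exactly `ℵ₁` points
in every nonempty open set there is a map of the Baire space into itself with the modulus of
continuity `m` which maps `A` onto an uncountable subset of `B`. For `m k = k` this follows from the
Lipschitz Baumgartner axiom `BALip ℕ`, where the map is moreover injective on `A`.

Proof. Otherwise some family `x ζ`, `ζ < ω₁`, of functions is not captured by any slalom of width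
`n ^ 2`. Let `B` be the set of the finite modifications of sequences `z η` whose `j`-th term codes
`x ζ j` for the first `j + 1` of the `ζ ≤ η`, and let `A` be the set of the finite modifications of
`ℵ₁` sequences of zeros and ones with ones only at very sparse positions. A map `f` of modulus `m`
has at most `2 j` possible values `f a j` for the members `a` of `A` with a given beginning. This
gives countably many slaloms of width `2 j` such that every `x ζ` is captured by one of them, and a
single slalom of width `j ^ 2`.
-/

set_option autoImplicit false

open Cardinal Set

namespace Pool.Agent.Results.MP_84ba36_lc.WeakAxiomAddNull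

open Pool.Agent.Q212.BL

theorem result :
    (∀ m : ℕ → ℕ, WeakMod m → ∀ ι : Type, #ι ≤ ℵ₁ → ∀ A : ι → Set ℝ,
      (∀ i, MeasureTheory.volume (A i) = 0) → MeasureTheory.volume (⋃ i, A i) = 0) ∧
    (BALip ℕ → ∀ ι : Type, #ι ≤ ℵ₁ → ∀ A : ι → Set ℝ,
      (∀ i, MeasureTheory.volume (A i) = 0) → MeasureTheory.volume (⋃ i, A i) = 0) :=
  ⟨fun _ h _ hι A hA => null_union h hι A hA,
    fun h _ hι A hA => null_union h.weakMod hι A hA⟩

end Pool.Agent.Results.MP_84ba36_lc.WeakAxiomAddNull
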