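import Pool.Agent.Q212.BL.Cont

/-!
# A weak Baumgartner axiom implies `2 ^ ℵ₀ = 2 ^ ℵ₁`

`WeakBorel α` says that for all sets `A`, `B` of sequences in `α` with exactly `ℵ₁` points in every
nonempty open set there is a Borel map of the space of the sequences into itself which maps `A` onto
an uncountable subset of `B`. For `α = ℕ` and `α = Bool` this follows from the Lipschitz Baumgartner
axiom `BALip α`, where the map is `1`-Lipschitz and injective on `A`.

Proof. Code the pairs `(η, S)`, `S` a set of countable ordinals below `η`, by sequences. For a set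
`X` of countable ordinals let `B X` be the set of the finite modifications of the codes of
`(η, X ∩ [0, η])`, written with infinitely many copies of every bit. Fix `A`, and let `f X` be a
Borel map of `A` onto an uncountable subset of `B X`. If `f X = f Y`, then uncountably many points
lie in `B X` and in `B Y`, which gives `X = Y`. Thus there are `2 ^ ℵ₁` Borel maps.
-/

set_option autoImplicit false

open Cardinal Set

namespace Pool.Agent.Results.MP_84ba36_lc.WeakAxiomPowers

open Pool.Agent.Q212.BL

theorem result :
    (∀ (α : Type) [Countable α] [Nontrivial α] [TopologicalSpace α] [DiscreteTopology α],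
      WeakBorel α → (2 : Cardinal.{0}) ^ (ℵ₀ : Cardinal.{0}) = 2 ^ (ℵ₁ : Cardinal.{0})) ∧
    (BALip ℕ → (2 : Cardinal.{0}) ^ (ℵ₀ : Cardinal.{0}) = 2 ^ (ℵ₁ : Cardinal.{0})) ∧
    (BALip Bool → (2 : Cardinal.{0}) ^ (ℵ₀ : Cardinal.{0}) = 2 ^ (ℵ₁ : Cardinal.{0})) := by
  have h1 : ∀ (α : Type) [Countable α] [Nontrivial α] [TopologicalSpace α] [DiscreteTopology α],
      WeakBorel α → (2 : Cardinal.{0}) ^ (ℵ₀ : Cardinal.{0}) = 2 ^ (ℵ₁ : Cardinal.{0}) := by
    intro α _ _ _ _ h
    obtain ⟨a, b, hab⟩ := exists_pair_ne α
    refine two_power_eq (fun t : Bool => if t = true then a else b) (fun s t hst => ?_) h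
    revert hst
    cases s <;> cases t <;> simp [hab, hab.symm]
  exact ⟨h1, fun h => h1 ℕ h.weakBorel, fun h => h1 Bool h.weakBorel⟩

end Pool.Agent.Results.MP_84ba36_lc.WeakAxiomPowers
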